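import Pool.Agent.Q55.Lr.SgnLaw

/-!
# The distance of the Kunneth components from the algebraic classes

Let `X` be a smooth projective variety over a field and `H` a Weil cohomology with coefficient field
`K`. The operators on `H(X)` which are combinations, with coefficients in `K`, of algebraic
correspondences of any degrees are called algebraic. Let `d_i(X)` be the smallest rank of an operator
`π_i - u`, where `π_i` is the `i`-th Kunneth projector and `u` is algebraic, and `d(X)` the maximum
of the `d_i(X)`. Let `b` be the sum of the Betti numbers of `X` and `r_j(Y)` the rank of the group of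
the cycles of codimension `j` on `Y` modulo numerical equivalence.

The theorem.

* `d_i(X) = 0` if and only if `π_i` is in the `K`-span of the classes of the cycles of codimension
  `dim X` on `X × X`.
* If `π_i` is not algebraic, then `d_(i+2j)(X × Y) ≥ r_j(Y) / b` for all `Y` and all `j ≤ dim Y`. So a
  single component `π_(i+2j)` of a single product `X × Y`, known up to an operator of rank less than
  `r_j(Y) / b`, decides about `π_i` of `X`.
* Either the conjecture C holds for `X` and `d(X^n) = 0` for all powers, or it fails and then, for
  all `n ≥ 1`, `b^n ≤ b^3 (dim X + 1) (n+1)^(b^2+1) d(X^n)`, while `b^n = dim H(X^n)` is the trivial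
  upper bound of `d(X^n)`; in particular `d(X^n)^(1/n)` converges to `b`. No further hypothesis is
  needed: if the sign conjecture holds for `X`, this comes from the growth of the cycles on the powers
  of `X` modulo numerical equivalence; if it fails, the even projector is already at the maximal
  distance.
-/

open CategoryTheory AlgebraicGeometry Filter Topology

universe u v

namespace Pool.Agent.Results.MP_a60482_ag.ComponentDistance

open Pool.Agent.H914 Pool.Agent.H914.VarClass Pool.Agent.H914.VarClass.Obj
  Pool.Agent.H914.WeilCohomology Pool.Agent.Y133.Half Pool.Agent.Q55.Lr Pool.Agent.Q55.Rate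
  Pool.Agent.W534

variable {k : Type u} [Field k] {𝒱 : VarClass k} {ops : CycleOps 𝒱}

/-- **The distance of the Kunneth components from the algebraic operators.** -/
theorem result (W : WeilCohomology.{u, v} ops) (X : 𝒱.Obj) :
    (∀ i, projDist W X i = 0 ↔ ComponentAlgebraic W X i) ∧
    (∀ i, ¬ ComponentAlgebraic W X i → ∀ (Y : 𝒱.Obj), ∀ j ≤ Y.dim,
      numRank ops Y j ≤ totalBetti W X * projDist W (X.prod Y) (i + 2 * j)) ∧
    (((∀ i, ComponentAlgebraic W X i) ∧ ∀ n, kunnethDist W (pw X n) = 0) ∨
      ((¬ ∀ i, ComponentAlgebraic W X i) ∧
        (∀ n, totalBetti W X ^ (n + 1) ≤ totalBetti W X ^ 3 * (X.dim + 1) *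
          (n + 2) ^ (totalBetti W X ^ 2 + 1) * kunnethDist W (pw X n)) ∧
        Tendsto (fun n : ℕ => (kunnethDist W (pw X n) : ℝ) ^ ((1 : ℝ) / (n + 1))) atTop
          (𝓝 (totalBetti W X)))) := by
  refine ⟨fun i => pdist_eq_zero, fun i hi Y j hj => pdist_left hj hi, ?_⟩
  by_cases hC : ∀ i, ComponentAlgebraic W X i
  · exact Or.inl ⟨hC, fun n => kdist_eq_zero.2 (component_pw hC n)⟩
  · exact Or.inr ⟨hC, kdist_law hC, kdist_rate' hC⟩

end Pool.Agent.Results.MP_a60482_ag.ComponentDistance
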