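import Pool.Agent.Q8.KC.Det

/-!
# The Künneth components and the determinants of the cohomology

Let `W` be a Weil cohomology theory on a class of smooth projective varieties over a field, closed
under products (the intended use: the `ℓ`-adic theories and all smooth projective varieties over an
algebraically closed field), `X` a variety of the class, of dimension `n`, `0 ≤ i ≤ 2n` and
`b = dim H^i(X)`. For a basis `e` of `H^i(X)` and a basis `f` of `H^(2n-i)(X)` put
`det e = ∑ sign(σ) e_σ(1) × ⋯ × e_σ(b)` in `H^(i b)(X^b)` and

  `κ_i = det f × det e` in `H^(2 n b)(X^(2 b))`.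

Up to a nonzero scalar `κ_i` does not depend on the bases: it spans the one-dimensional subspace
`det H^(2n-i)(X) ⊗ det H^i(X)`.

* The Künneth component `π_i` of the diagonal of `X` is algebraic (a combination of classes of cycles
  on `X × X`) if and only if the single class `κ_i` on `X^(2b)` is.
* So the standard conjecture of Künneth type for `X` is equivalent to the algebraicity of the `n`
  classes `κ_i`, `0 ≤ i < n`.

The proof. The contraction of `κ_i` with the diagonal of `X^(b-1)` is, by Cramer's rule, a nonzero
multiple of `π_i`. Conversely, `π_i` is `∑ ± g_k × e_k` for the basis `g` dual to `e`, and the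
antisymmetrization of its `b`-th external power is a nonzero multiple of `κ_i`.
-/

open CategoryTheory AlgebraicGeometry

universe u v

namespace Pool.Agent.Results.MP_a60482_ag.DeterminantClasses

open Pool.Agent.H914 Pool.Agent.H914.VarClass Pool.Agent.H914.VarClass.Obj
open Pool.Agent.Q8.KC

variable {k : Type u} [Field k] {𝒱 : VarClass k} {ops : CycleOps 𝒱}

/-- **The Künneth components and the determinant classes.** -/
theorem result (W : WeilCohomology.{u, v} ops) (X : 𝒱.Obj) :
    (∀ i ≤ 2 * X.dim, (ComponentInSpan W X i ↔ DetPairAlgebraic W X i)) ∧
      ((∀ i, ComponentInSpan W X i) ↔ ∀ i < X.dim, DetPairAlgebraic W X i) :=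
  ⟨fun _ hi => span_iff_det hi, all_iff_det⟩

end Pool.Agent.Results.MP_a60482_ag.DeterminantClasses
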