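import Pool.Agent.Q8.KC.Det

/-!
# One determinant class in one theory gives one rational projector for all theories

Let `𝒲` be a nonempty set of Weil cohomology theories on a class of smooth projective varieties over
a field, closed under products, and `X` a variety of the class, of dimension `n`, for which the cycles
on `X × X` have the same rational traces on each `H^j(X)` in all theories of `𝒲` (for the `ℓ`-adic
theories, `ℓ ≠ p`, this is the theorem of Katz and Messing and the specialisation of cycles). Let
`0 ≤ i ≤ 2n`, `b = dim H^i(X)` and let `κ_i` in `H^(2 n b)(X^(2 b))` be a generator of the line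
`det H^(2n-i)(X) ⊗ det H^i(X)`. Then the following are equivalent: ONE cycle with rational
coefficients induces the projector onto `H^i(X)` for ALL theories in `𝒲`; `κ_i` is algebraic for ONE
theory in `𝒲`; `κ_i` is algebraic for ALL theories in `𝒲`.
-/

open CategoryTheory AlgebraicGeometry

universe u v

namespace Pool.Agent.Results.MP_a60482_ag.DeterminantTheories

open Pool.Agent.H914 Pool.Agent.H914.VarClass Pool.Agent.H914.VarClass.Obj
open Pool.Agent.TH133.PW (SameTracesAll OneProjectorForAll)
open Pool.Agent.Q8.KC

variable {k : Type u} [Field k] {𝒱 : VarClass k} {ops : CycleOps 𝒱}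

/-- **The determinant classes in several theories.** -/
theorem result (X : 𝒱.Obj) (𝒲 : Set (WeilCohomology.{u, v} ops)) (hne : 𝒲.Nonempty)
    (h𝒲 : SameTracesAll 𝒲 X) (i : ℕ) (hi : i ≤ 2 * X.dim) :
    List.TFAE [OneProjectorForAll 𝒲 X i,
      ∃ W ∈ 𝒲, DetPairAlgebraic W X i, ∀ W ∈ 𝒲, DetPairAlgebraic W X i] := by
  tfae_have 1 → 3 := fun h W hW => (one_iff_det hW h𝒲 hi).2 h
  tfae_have 3 → 2 := by
    intro h
    obtain ⟨W, hW⟩ := hne
    exact ⟨W, hW, h W hW⟩
  tfae_have 2 → 1 := by
    rintro ⟨W, hW, h⟩
    exact (one_iff_det hW h𝒲 hi).1 h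
  tfae_finish

end Pool.Agent.Results.MP_a60482_ag.DeterminantTheories
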