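import Pool.Agent.Q200.LD.MainC

/-!
# MP_a60482_ag: the Künneth conjecture `C(X)` and cycles of small dimension or small codimension

Let `X` be a smooth projective variety of dimension `d` over a field, let `W` be a Weil cohomology
theory, and let `D` be a divisor on `X` whose class satisfies the hard Lefschetz theorem. Let
`0 < n < d`, and let `P` be a property of varieties (for instance being of dimension less than `d`).
Consider the classes on the powers of `X` which are generated, under linear combinations, cup
products and pull-backs and push-forwards along the coordinate morphisms (projections,
permutations and diagonals), by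

* the classes of all cycles of dimension less than `d` on all powers of `X`,
* the classes of all cycles of codimension less than `n` on all powers of `X`,
* all classes, algebraic or not, on the powers of `X` which are push-forwards along morphisms
  whose components factor through varieties with the property `P`,
* the Künneth projectors of all degrees `i ≠ n, 2 d - n`.

Let `L` be the space of the classes in `H^n(X)` which are obtained from classes of smaller degrees
by cycles of dimension at most `d` on the powers of `X`, or which are push-forwards from varieties
with the property `P`.

1. If `n` is odd, suppose that `L ≠ H^n(X)`; if `n` is even, suppose that `H^n(X) / L` has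
   dimension at least two. If a generated class on `X × X` acts on every `H^j(X)` as a scalar
   `r_j`, then `r_n = r_(2 d - n)`. In particular the Künneth projector of degree `n` is not
   generated.

2. If `H^j(X)` is spanned by algebraic classes for all `j < n`, then `L` consists of algebraic
   classes (for empty `P`). Hence the Künneth projector of degree `n` is not generated if `n` is
   odd and `H^n(X) ≠ 0`, or if `n` is even and the quotient of `H^n(X)` by the algebraic classes
   has dimension at least two.

So already in the first degree in which `C(X)` is not obvious, `C(X)` cannot be deduced formally
from the existence of cycles of dimension less than `d` and of cycles of codimension less than `n`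
on the powers of `X`; the cycle predicted by the conjecture has dimension and codimension `d`.
-/

open CategoryTheory AlgebraicGeometry

universe u v

namespace Pool.Agent.Results.MP_a60482_ag.SmallCycles

open Pool.Agent.H914 Pool.Agent.H914.VarClass Pool.Agent.H914.VarClass.Obj
  Pool.Agent.H914.WeilCohomology
open Pool.Agent.Q200.LD

theorem result {k : Type u} [Field k] {𝒱 : VarClass k} {ops : CycleOps 𝒱}
    (W : WeilCohomology.{u, v} ops) (X : 𝒱.Obj) (D : X.Cycles) (hD : X.IsCyc 1 D)
    (hHL : HardLefschetz W X D) (n : ℕ) (hn : 0 < n) (hnd : n < X.dim) (P : 𝒱.Obj → Prop)
    (h : IsBigModulo (W.gr X) n (lowerPart W X P n) ∨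
      ((∀ Y, ¬ P Y) ∧ (∀ j < n, SpannedByCycles W X j) ∧
        IsBigModulo (W.gr X) n (Pool.Agent.H281R3.HT.algSpan W X))) :
    ∀ c ∈ smallClasses W X P n {i | i ≠ n ∧ i ≠ 2 * X.dim - n} 1,
      (∀ r, ActsByScalars (W.gr X) r (corr1 W X c) → r n = r (2 * X.dim - n)) ∧
        ¬ IsProjector (W.gr X) n (corr1 W X c) := by
  intro c hc
  rcases h with h | ⟨hP, hlow, h⟩
  · exact kunneth_scalars hD hHL hn hnd le_rfl h hc
  · exact kunneth_scalars hD hHL hn hnd (lowerPart_empty hP hlow) h hc

end Pool.Agent.Results.MP_a60482_ag.SmallCycles
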